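import Mathlib
import Pool.Agent.H791R3.Main

set_option autoImplicit false

/-! Congruent simplices: the conjectured bounds fail for triangles and tetrahedra in 3-space. -/

namespace Pool.Agent.Results.MP_62c479_co.CongruentSimplices

open Filter Asymptotics

/-- Two finite sets of points of `ℝ^d` are congruent if some isometry of `ℝ^d` maps the first onto
the second. -/
def Congruent {d : ℕ} (X Y : Finset (EuclideanSpace ℝ (Fin d))) : Prop :=
  ∃ f : EuclideanSpace ℝ (Fin d) ≃ᵢ EuclideanSpace ℝ (Fin d),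
    f '' (X : Set (EuclideanSpace ℝ (Fin d))) = (Y : Set (EuclideanSpace ℝ (Fin d)))

/-- `Δ` is (the vertex set of) a `k`-dimensional simplex: `k + 1` affinely independent points. -/
def IsSimplex {d : ℕ} (k : ℕ) (Δ : Finset (EuclideanSpace ℝ (Fin d))) : Prop :=
  Δ.card = k + 1 ∧ AffineIndependent ℝ (fun x : Δ => (x : EuclideanSpace ℝ (Fin d)))

/-- The number of `(k + 1)`-element subsets of `P` that are congruent to `Δ`. -/
noncomputable def copies {d : ℕ} (k : ℕ) (P Δ : Finset (EuclideanSpace ℝ (Fin d))) : ℕ := by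
  classical
  exact ((P.powersetCard (k + 1)).filter fun S => Congruent S Δ).card

/-- `C d k n`: the largest number of congruent copies of a `k`-dimensional simplex spanned by `n`
points of `ℝ^d`. -/
noncomputable def C (d k n : ℕ) : ℕ :=
  sSup {m : ℕ | ∃ P Δ : Finset (EuclideanSpace ℝ (Fin d)),
    P.card = n ∧ IsSimplex k Δ ∧ copies k P Δ = m}

/-- The statement of the question: for `d ≥ 3` and `⌊d/2⌋ ≤ k ≤ d`, other than `(d,k) = (3,1)`,
`C_{d,k}(n) = O(n^{d/2})` if `d` is even and `C_{d,k}(n) = O(n^{d/2-1/6})` if `d` is odd. -/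
def Conjecture : Prop :=
  ∀ d k : ℕ, 3 ≤ d → d / 2 ≤ k → k ≤ d → ¬ (d = 3 ∧ k = 1) →
    (Even d → (fun n : ℕ => (C d k n : ℝ)) =O[atTop] fun n : ℕ => (n : ℝ) ^ ((d : ℝ) / 2)) ∧
    (Odd d → (fun n : ℕ => (C d k n : ℝ)) =O[atTop] fun n : ℕ => (n : ℝ) ^ ((d : ℝ) / 2 - 1 / 6))

theorem congruent_symm {d : ℕ} {X Y : Finset (EuclideanSpace ℝ (Fin d))} (h : Congruent X Y) :
    Congruent Y X := by
  obtain ⟨f, hf⟩ := h
  refine ⟨f.symm, ?_⟩
  rw [← hf, Set.image_image]
  simp

theorem congruent_card {d : ℕ} {X Y : Finset (EuclideanSpace ℝ (Fin d))} (h : Congruent X Y) :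
    X.card = Y.card := by
  classical
  obtain ⟨f, hf⟩ := h
  have h1 : X.image f = Y := by
    apply Finset.coe_injective
    rw [Finset.coe_image, hf]
  rw [← h1, Finset.card_image_of_injective _ f.injective]

theorem copies_le_C {d k : ℕ} (P Δ : Finset (EuclideanSpace ℝ (Fin d))) (hΔ : IsSimplex k Δ) :
    copies k P Δ ≤ C d k P.card := by
  classical
  refine le_csSup ⟨2 ^ P.card, ?_⟩ ⟨P, Δ, rfl, hΔ, rfl⟩
  rintro m ⟨P', Δ', h1, h2, rfl⟩
  unfold copies
  refine (Finset.card_le_card (Finset.filter_subset _ _)).trans ?_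
  rw [Finset.card_powersetCard, ← h1]
  exact Nat.choose_le_two_pow _ _

/-- the lattice points `0, e_0, …, e_{k-1}` -/
def std (I : Finset (Fin 3)) : Finset (Fin 3 → ℤ) :=
  insert 0 (I.image fun i => Pi.single i 1)

theorem emb_single (i : Fin 3) : Pool.Agent.H791R3.emb 1 (Pi.single i 1) =
    EuclideanSpace.single i (1 : ℝ) := by
  ext j
  by_cases h : j = i
  · subst h; simp [Pool.Agent.H791R3.emb]
  · simp [Pool.Agent.H791R3.emb, h]

theorem emb_zero : Pool.Agent.H791R3.emb 1 0 = 0 := by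
  ext j
  simp [Pool.Agent.H791R3.emb]

theorem isSimplex_std (I : Finset (Fin 3)) (k : ℕ) (hI : I.card = k) :
    IsSimplex (d := 3) k ((std I).image (Pool.Agent.H791R3.emb 1)) := by
  classical
  constructor
  · rw [Finset.card_image_of_injective _ (Pool.Agent.H791R3.emb_inj 1 one_ne_zero)]
    unfold std
    rw [Finset.card_insert_of_notMem, Finset.card_image_of_injective, hI]
    · intro i j h
      by_contra hij
      have := congrFun h i
      simp [hij] at this
    · intro h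
      obtain ⟨i, _, hi⟩ := Finset.mem_image.1 h
      have := congrFun hi i
      simp at this
  · set vs : Set (EuclideanSpace ℝ (Fin 3)) :=
      (fun i => EuclideanSpace.single i (1 : ℝ)) '' (I : Set (Fin 3)) with hvs
    have hset : (((std I).image (Pool.Agent.H791R3.emb 1) : Finset (EuclideanSpace ℝ (Fin 3))) :
        Set (EuclideanSpace ℝ (Fin 3))) =
        {0} ∪ (fun v : EuclideanSpace ℝ (Fin 3) => v +ᵥ (0 : EuclideanSpace ℝ (Fin 3))) '' vs := by
      rw [Finset.coe_image]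
      unfold std
      rw [Finset.coe_insert, Finset.coe_image, Set.image_insert_eq, emb_zero, Set.image_image,
        hvs, Set.image_image]
      simp only [emb_single, vadd_eq_add, add_zero]
      rfl
    have hne : ∀ v ∈ vs, v ≠ (0 : EuclideanSpace ℝ (Fin 3)) := by
      rintro _ ⟨i, _, rfl⟩ h
      have := congrArg (fun v : EuclideanSpace ℝ (Fin 3) => v i) h
      simp at this
    have hlin : LinearIndependent ℝ (fun v : vs => (v : EuclideanSpace ℝ (Fin 3))) := by
      have h0 : (fun i : Fin 3 => EuclideanSpace.single i (1 : ℝ)) =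
          ((EuclideanSpace.basisFun (Fin 3) ℝ).toBasis : Fin 3 → EuclideanSpace ℝ (Fin 3)) := by
        funext i
        simp
      have h1 : LinearIndependent ℝ (fun i : Fin 3 => EuclideanSpace.single i (1 : ℝ)) := by
        rw [h0]
        exact (EuclideanSpace.basisFun (Fin 3) ℝ).toBasis.linearIndependent
      have h2 : LinearIndepOn ℝ (fun i : Fin 3 => EuclideanSpace.single i (1 : ℝ))
          (I : Set (Fin 3)) := h1.comp _ Subtype.val_injective
      exact h2.id_image
    have h3 := (linearIndependent_set_iff_affineIndependent_vadd_union_singleton ℝ hne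
      (0 : EuclideanSpace ℝ (Fin 3))).1 hlin
    rw [← hset] at h3
    exact h3

theorem lower (I : Finset (Fin 3)) (k : ℕ) (hI : I.card = k)
    (hN : Pool.Agent.H791R3.NonCol (std I)) :
    ∃ c : ℝ, 0 < c ∧ ∀ᶠ n : ℕ in atTop,
      c * (n : ℝ) ^ (4 / 3 : ℝ) * Real.log (Real.log n) ≤ C 3 k n := by
  classical
  obtain ⟨c, hc, h⟩ := Pool.Agent.H791R3.congr_main (std I) hN
  refine ⟨c, hc, ?_⟩
  filter_upwards [h] with n hn
  obtain ⟨P, 𝒮, hP, h1, h2⟩ := hn
  have hs := isSimplex_std I k hI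
  refine h1.trans ?_
  have h3 := copies_le_C P _ hs
  rw [hP] at h3
  have h4 : 𝒮.card ≤ copies k P ((std I).image (Pool.Agent.H791R3.emb 1)) := by
    unfold copies
    refine Finset.card_le_card ?_
    intro S hS
    obtain ⟨h5, f, hf⟩ := h2 S hS
    have hcon : Congruent S ((std I).image (Pool.Agent.H791R3.emb 1)) := congruent_symm ⟨f, hf⟩
    rw [Finset.mem_filter, Finset.mem_powersetCard]
    exact ⟨⟨h5, (congruent_card hcon).trans hs.1⟩, hcon⟩
  exact_mod_cast h4.trans h3

theorem std_nonCol (I : Finset (Fin 3)) (h0 : 0 ∈ I) (h1 : 1 ∈ I) :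
    Pool.Agent.H791R3.NonCol (std I) := by
  refine ⟨0, by simp [std], Pi.single 0 1, ?_, Pi.single 1 1, ?_, ?_⟩
  · simp only [std, Finset.mem_insert, Finset.mem_image]
    exact Or.inr ⟨0, h0, rfl⟩
  · simp only [std, Finset.mem_insert, Finset.mem_image]
    exact Or.inr ⟨1, h1, rfl⟩
  · simp [Pool.Agent.H791R3.dt, Pool.Agent.H791R3.cr]

/-- For triangles and for tetrahedra in three-space, `C_{3,k}(n) ≥ c n^{4/3} log log n` for all
large `n`; hence the conjectured bounds are false (at `(d,k) = (3,2)` and at `(3,3)`). -/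
theorem result :
    (∀ k : ℕ, k = 2 ∨ k = 3 → ∃ c : ℝ, 0 < c ∧ ∀ᶠ n : ℕ in atTop,
      c * (n : ℝ) ^ (4 / 3 : ℝ) * Real.log (Real.log n) ≤ C 3 k n) ∧
    ¬ Conjecture := by
  have hlow : ∀ k : ℕ, k = 2 ∨ k = 3 → ∃ c : ℝ, 0 < c ∧ ∀ᶠ n : ℕ in atTop,
      c * (n : ℝ) ^ (4 / 3 : ℝ) * Real.log (Real.log n) ≤ C 3 k n := by
    rintro k (rfl | rfl)
    · exact lower {0, 1} 2 (by decide) (std_nonCol _ (by decide) (by decide))
    · exact lower Finset.univ 3 (by decide) (std_nonCol _ (by decide) (by decide))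
  refine ⟨hlow, ?_⟩
  intro hconj
  obtain ⟨c, hc, h⟩ := hlow 3 (Or.inr rfl)
  have h1 := (hconj 3 3 le_rfl (by norm_num) le_rfl (by norm_num)).2 (by decide)
  obtain ⟨M, hM⟩ := h1.bound
  have hLL : Tendsto (fun n : ℕ => Real.log (Real.log (n : ℝ))) atTop atTop :=
    Real.tendsto_log_atTop.comp (Real.tendsto_log_atTop.comp tendsto_natCast_atTop_atTop)
  obtain ⟨n, ⟨⟨a1, a2⟩, a3⟩, a4⟩ := (((h.and hM).and (hLL.eventually_gt_atTop (M / c))).and
    (eventually_gt_atTop 0)).exists
  have hn : (0 : ℝ) < n := by exact_mod_cast a4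
  have e : (((3 : ℕ) : ℝ) / 2 - 1 / 6) = 4 / 3 := by norm_num
  rw [e] at a2
  rw [Real.norm_of_nonneg (by positivity), Real.norm_of_nonneg (by positivity)] at a2
  have hpos : 0 < (n : ℝ) ^ (4 / 3 : ℝ) := Real.rpow_pos_of_pos hn _
  rw [div_lt_iff₀ hc] at a3
  have h5 : M * (n : ℝ) ^ (4 / 3 : ℝ) < Real.log (Real.log n) * c * (n : ℝ) ^ (4 / 3 : ℝ) :=
    mul_lt_mul_of_pos_right a3 hpos
  have h6 : Real.log (Real.log n) * c * (n : ℝ) ^ (4 / 3 : ℝ) =
      c * (n : ℝ) ^ (4 / 3 : ℝ) * Real.log (Real.log n) := by ring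
  linarith

end Pool.Agent.Results.MP_62c479_co.CongruentSimplices
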